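import Mathlib

namespace Pool.Agent.Lib.MP_9f1eae_lc.LF

/-- `S11 P`: the predicate `P` is `Sigma^1_1`. -/
def S11 {α : Type} [Primcodable α] (P : α → Prop) : Prop :=
  ∃ R : α × List ℕ → Prop, ComputablePred R ∧
    ∀ x, P x ↔ ∃ f : ℕ → ℕ, ∀ n, R (x, (List.range n).map f)

/-- `B` is `Delta^1_1`. -/
def IsHyp (B : Set ℕ) : Prop := S11 (fun x => x ∈ B) ∧ S11 (fun x => x ∉ B)

/-- `S` is algebraically independent and generates the polynomial ring. -/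
def IsBasis (S : Set (MvPolynomial ℕ ℚ)) : Prop :=
  AlgebraicIndependent ℚ ((↑) : S → MvPolynomial ℕ ℚ) ∧ Algebra.adjoin ℚ S = ⊤

end Pool.Agent.Lib.MP_9f1eae_lc.LF
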