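import Mathlib
import Pool.Agent.Lib.MP_9f1eae_lc.LD.Pos
import Pool.Agent.Lib.MP_9f1eae_lc.LF.Defs

/-! Closure properties of `Sigma^1_1` and `Delta^1_1` predicates. -/

namespace Pool.Agent.Lib.MP_9f1eae_lc.LF

open Pool.Agent.Lib.MP_3d42d9_lc Pool.Agent.Lib.MP_9f1eae_lc Pool.Agent.Lib.MP_9f1eae_lc.LD
  Encodable

variable {α β : Type} [Primcodable α] [Primcodable β] {P Q : α → Prop}

theorem s11_iff : S11 P ↔ ∃ R : α × List ℕ → Bool, CP R ∧
    ∀ x, P x ↔ ∃ f : ℕ → ℕ, ∀ n, R (x, (List.range n).map f) = true := by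
  refine ⟨fun ⟨R, h1, h2⟩ => ?_, fun ⟨R, h1, h2⟩ => ⟨_, Sg.bool h1 0, h2⟩⟩
  obtain ⟨g, h3, h4⟩ := sg_zero.1 (show Sg 0 R from h1)
  exact ⟨g, h3, fun x => by simp only [h2, h4]⟩

theorem S11.congr (h : S11 P) (e : ∀ x, Q x ↔ P x) : S11 Q := by
  rwa [show Q = P from funext fun x => propext (e x)]

theorem S11.comp (h : S11 P) {g : β → α} (hg : CP g) : S11 fun x => P (g x) := by
  obtain ⟨R, h1, h2⟩ := s11_iff.1 h
  exact s11_iff.2 ⟨fun p => R (g p.1, p.2), h1.comp' (by fun_prop), fun x => h2 _⟩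

theorem S11.bool {f : α → Bool} (hf : CP f) : S11 fun x => f x = true :=
  s11_iff.2 ⟨fun p => f p.1, by fun_prop, fun x => by simp⟩

theorem S11.cond (h : S11 P) (h' : S11 Q) {c : α → Bool} (hc : CP c) :
    S11 fun x => cond (c x) (P x) (Q x) := by
  obtain ⟨R, h1, h2⟩ := s11_iff.1 h
  obtain ⟨R', h3, h4⟩ := s11_iff.1 h'
  refine s11_iff.2 ⟨fun p => (c p.1 && R p) || (!c p.1 && R' p), by fun_prop, fun x => ?_⟩
  cases k : c x <;> simp [h2, h4, k]

theorem getD_pre (f : ℕ → ℕ) {i N : ℕ} (h : i < N) : ((List.range N).map f).getD i 0 = f i := by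
  simp [List.getD_eq_getElem?_getD, List.getElem?_range h]

/-- The reading of a finite string used for sequences of witnesses. -/
def rd (z : ℕ × ℕ) (L : List ℕ) : (ℕ × ℕ × ℕ) × List ℕ :=
  ((z.1, L.getD (Nat.pair 0 z.1) 0, L.getD (Nat.pair 0 (z.1 + 1)) 0),
    (List.range z.2).map fun i => L.getD (Nat.pair (z.1 + 1) i) 0)

theorem pr_rd : PR fun p : (ℕ × ℕ) × List ℕ => rd p.1 p.2 := by
  unfold rd
  have g : ∀ {γ : Type} [Primcodable γ] {L : γ → List ℕ} {i : γ → ℕ}, PR L → PR i →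
      PR fun x => (L x).getD (i x) 0 := fun hL hi => (Primrec.list_getD 0).comp hL hi
  exact PR.pair (PR.pair (by fun_prop) (PR.pair (g (by fun_prop) (by fun_prop))
    (g (by fun_prop) (by fun_prop)))) (PR.map (by fun_prop) (g (by fun_prop) (by fun_prop)))

theorem rd_pre (g : ℕ → ℕ) {l n N : ℕ} (h : (l + n + 2) ^ 2 < N) :
    rd (l, n) ((List.range N).map g) = ((l, g (Nat.pair 0 l), g (Nat.pair 0 (l + 1))),
      (List.range n).map fun i => g (Nat.pair (l + 1) i)) := by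
  have k : ∀ a b, a ≤ l + 1 → b ≤ l + n + 1 → Nat.pair a b < N := fun a b ha hb =>
    ((Nat.pair_lt_max_add_one_sq a b).trans_le (Nat.pow_le_pow_left (by omega) 2)).trans h
  simp only [rd, getD_pre g (k 0 l (by omega) (by omega)),
    getD_pre g (k 0 (l + 1) (by omega) (by omega))]
  congr 1
  refine List.map_congr_left fun i m => getD_pre g (k _ _ le_rfl ?_)
  have := List.mem_range.1 m
  omega

theorem S11.path {Q : α × ℕ × ℕ × ℕ → Prop} (h : S11 Q) :
    S11 fun x => ∃ b : ℕ → ℕ, ∀ l, Q (x, l, b l, b (l + 1)) := by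
  obtain ⟨R, h1, h2⟩ := s11_iff.1 h
  let z : List ℕ → ℕ × ℕ := fun L => L.length.unpair.1.unpair
  have c1 : CP fun p : α × List ℕ => rd (z p.2) p.2 :=
    CP.bin pr_rd (by simp only [z]; fun_prop) (by fun_prop)
  have c2 : CP fun p : α × List ℕ => Nat.blt (((z p.2).1 + (z p.2).2 + 2) ^ 2) p.2.length :=
    CP.of_pr (by simp only [z]; fun_prop)
  refine s11_iff.2 ⟨fun p => !Nat.blt (((z p.2).1 + (z p.2).2 + 2) ^ 2) p.2.length ||
    R ((p.1, (rd (z p.2) p.2).1), (rd (z p.2) p.2).2),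
    c2.not.or (h1.comp' (CP.pair (CP.pair (by fun_prop) c1.fst) c1.snd)), fun x => ?_⟩
  simp only [h2]
  refine ⟨fun ⟨b, hb⟩ => ?_, fun ⟨g, hg⟩ => ⟨fun l => g (Nat.pair 0 l), fun l =>
    ⟨fun i => g (Nat.pair (l + 1) i), fun n => ?_⟩⟩⟩
  · choose f hf using hb
    refine ⟨fun k => Nat.casesOn k.unpair.1 (b k.unpair.2) fun l => f l k.unpair.2, fun N => ?_⟩
    generalize hz : z _ = w
    obtain ⟨l, n⟩ := w
    by_cases m : (l + n + 2) ^ 2 < N
    · rw [rd_pre _ m]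
      simp [hf]
    · have : Nat.blt ((l + n + 2) ^ 2) N = false := by
        rwa [← Bool.not_eq_true, Nat.blt_eq]
      simp [this]
  · have := hg (Nat.pair (Nat.pair l n) ((l + n + 2) ^ 2 + 1))
    have m : (l + n + 2) ^ 2 < Nat.pair (Nat.pair l n) ((l + n + 2) ^ 2 + 1) :=
      Nat.right_le_pair _ _
    simp only [z, List.length_map, List.length_range, Nat.unpair_pair, rd_pre g m] at this
    have m' : Nat.blt _ _ = true := Nat.blt_eq ▸ m
    simpa [m'] using this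

theorem S11.all {T : Type} [Primcodable T] [Inhabited T] {P : α × T → Prop} (h : S11 P) :
    S11 fun x => ∀ t, P (x, t) :=
  (h.comp (g := fun p : α × ℕ × ℕ × ℕ => (p.1, dec T p.2.1)) (by fun_prop)).path.congr fun _ =>
    ⟨fun k => ⟨id, fun _ => k _⟩, fun ⟨_, k⟩ t => by simpa only [dec_encode] using k (encode t)⟩

theorem S11.ex {T : Type} [Primcodable T] [Inhabited T] {P : α × T → Prop} (h : S11 P) :
    S11 fun x => ∃ t, P (x, t) :=
  (h.comp (g := fun p : α × ℕ × ℕ × ℕ => (p.1, dec T p.2.2.1)) (by fun_prop)).path.congr fun _ =>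
    ⟨fun ⟨t, k⟩ => ⟨fun _ => encode t, fun _ => by simpa only [dec_encode] using k⟩,
      fun ⟨_, k⟩ => ⟨_, k 0⟩⟩

theorem S11.two (h : S11 P) (h' : S11 Q) :
    S11 fun p : α × ℕ => _root_.cond (p.2 == 0) (P p.1) (Q p.1) :=
  (h.comp (by fun_prop)).cond (h'.comp (by fun_prop)) (by fun_prop)

theorem S11.and (h : S11 P) (h' : S11 Q) : S11 fun x => P x ∧ Q x :=
  (h.two h').all.congr fun _ => ⟨fun k t => by cases t <;> simp [k.1, k.2],
    fun k => ⟨by simpa using k 0, by simpa using k 1⟩⟩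

theorem S11.or (h : S11 P) (h' : S11 Q) : S11 fun x => P x ∨ Q x :=
  (h.two h').ex.congr fun _ => ⟨fun k => k.elim (fun k => ⟨0, by simpa using k⟩)
    fun k => ⟨1, by simpa using k⟩, fun ⟨t, k⟩ => by cases t <;> simp at k <;> simp [k]⟩

theorem S11.pathL {Q : α × ℕ × List ℕ × List ℕ → Prop} (h : S11 Q) :
    S11 fun x => ∃ b : ℕ → List ℕ, ∀ l, Q (x, l, b l, b (l + 1)) :=
  (h.comp (g := fun p : α × ℕ × ℕ × ℕ =>
    (p.1, p.2.1, dec (List ℕ) p.2.2.1, dec (List ℕ) p.2.2.2)) (by fun_prop)).path.congr fun _ =>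
    ⟨fun ⟨b, k⟩ => ⟨fun l => encode (b l), fun l => by simpa only [dec_encode] using k l⟩,
      fun ⟨b, k⟩ => ⟨fun l => dec _ (b l), k⟩⟩

/-- `Delta^1_1` predicates. -/
def D1 (P : α → Prop) : Prop := S11 P ∧ S11 fun x => ¬ P x

theorem D1.congr (h : D1 P) (e : ∀ x, Q x ↔ P x) : D1 Q := by
  rwa [show Q = P from funext fun x => propext (e x)]
theorem D1.comp (h : D1 P) {g : β → α} (hg : CP g) : D1 fun x => P (g x) :=
  ⟨h.1.comp hg, h.2.comp hg⟩
theorem D1.bool {f : α → Bool} (hf : CP f) : D1 fun x => f x = true :=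
  ⟨S11.bool hf, (S11.bool hf.not).congr fun x => by simp⟩
theorem D1.not (h : D1 P) : D1 fun x => ¬ P x := ⟨h.2, h.1.congr fun x => by simp⟩
theorem D1.and (h : D1 P) (h' : D1 Q) : D1 fun x => P x ∧ Q x :=
  ⟨h.1.and h'.1, (h.2.or h'.2).congr fun x => by tauto⟩
theorem D1.imp (h : D1 P) (h' : D1 Q) : D1 fun x => P x → Q x :=
  (h.and h'.not).not.congr fun x => by tauto
theorem D1.ex {T : Type} [Primcodable T] [Inhabited T] {P : α × T → Prop} (h : D1 P) :
    D1 fun x => ∃ t, P (x, t) := ⟨h.1.ex, h.2.all.congr fun x => by simp⟩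
theorem D1.all {T : Type} [Primcodable T] [Inhabited T] {P : α × T → Prop} (h : D1 P) :
    D1 fun x => ∀ t, P (x, t) := h.not.ex.not.congr fun x => by simp

theorem D1.of_sg {n : ℕ} (h : Sg n P) : D1 P := by
  induction n generalizing α with
  | zero =>
    obtain ⟨f, h1, h2⟩ := sg_zero.1 h
    exact (D1.bool h1).congr h2
  | succ n ih =>
    obtain ⟨R, h1, h2⟩ := h
    exact (ih h1).not.ex.congr h2

theorem D1.of_ar (h : Ar P) : D1 P := h.elim fun _ k => D1.of_sg k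

/-- A hyperarithmetic path through a hyperarithmetic system of extensions. -/
theorem d1_path {St : List ℕ × ℕ × List ℕ → Prop} (hS : D1 St) {Inv : List ℕ → Prop} (h0 : Inv [])
    (hs : ∀ b l, Inv b → ∃ b', St (b, l, b')) (hi : ∀ b l b', St (b, l, b') → Inv b') :
    ∃ β : ℕ → List ℕ, (∀ l, Inv (β l)) ∧ (∀ l, St (β l, l, β (l + 1))) ∧
      D1 fun x : ℕ => ∃ l, x ∈ β l := by
  let S : ℕ × ℕ × ℕ → Prop := fun p => St (dec (List ℕ) p.1, p.2.1, dec (List ℕ) p.2.2)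
  have aS : D1 S := hS.comp (by fun_prop)
  let L : ℕ × ℕ × ℕ → Prop := fun p => S p ∧ ∀ k, Nat.blt k p.2.2 = true → ¬ S (p.1, p.2.1, k)
  have aL : D1 L := aS.and (D1.all (P := fun q : (ℕ × ℕ × ℕ) × ℕ =>
    Nat.blt q.2 q.1.2.2 = true → ¬ S (q.1.1, q.1.2.1, q.2))
      ((D1.bool (by fun_prop)).imp (aS.comp (by fun_prop)).not))
  let k0 := Encodable.encode ([] : List ℕ)
  let κ : ℕ → ℕ := fun l => Nat.rec k0 (fun l k => sInf {k' | S (k, l, k')}) l
  have st : ∀ l, Inv (dec _ (κ l)) → S (κ l, l, κ (l + 1)) := fun l h => by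
    obtain ⟨b, hb⟩ := hs _ l h
    exact Nat.sInf_mem (s := {k' | S (κ l, l, k')})
      ⟨Encodable.encode b, by simpa only [Set.mem_ofPred_eq, S, dec_encode] using hb⟩
  have inv : ∀ l, Inv (dec _ (κ l)) := fun l => by
    induction l with
    | zero => simpa only [κ, k0, Nat.rec_zero, dec_encode] using h0
    | succ l ih => exact hi _ _ _ (st l ih)
  have uq : ∀ l k, L (κ l, l, k) ↔ k = κ (l + 1) := fun l k => by
    refine ⟨fun h => le_antisymm (not_lt.1 fun m => ?_)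
      (Nat.sInf_le (s := {k' | S (κ l, l, k')}) h.1), ?_⟩
    · exact h.2 _ (by simpa using m) (st l (inv l))
    · rintro rfl
      exact ⟨st l (inv l), fun k m =>
        Nat.notMem_of_lt_sInf (s := {k' | S (κ l, l, k')}) (by simpa using m)⟩
  refine ⟨fun l => dec _ (κ l), inv, fun l => st l (inv l), ?_⟩
  have a1 : D1 fun q : ℕ × List ℕ × ℕ => ∀ i, Nat.blt i q.2.2 = true →
      L (q.2.1.getD i 0, i, q.2.1.getD (i + 1) 0) :=
    D1.all (P := fun r : (ℕ × List ℕ × ℕ) × ℕ => Nat.blt r.2 r.1.2.2 = true →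
      L (r.1.2.1.getD r.2 0, r.2, r.1.2.1.getD (r.2 + 1) 0))
      ((D1.bool (by fun_prop)).imp (aL.comp (CP.pair (by fun_prop) (CP.pair (by fun_prop)
        (CP.getD _ (by fun_prop) (CP.of_pr (by fun_prop)))))))
  have a2 : D1 fun q : ℕ × List ℕ × ℕ => ((q.2.1.getD 0 0 == k0) &&
      mb q.1 (dec (List ℕ) (q.2.1.getD q.2.2 0))) = true := D1.bool (by fun_prop)
  refine (a1.and a2).ex.congr fun x => ⟨fun ⟨l, h⟩ => ?_, fun ⟨⟨H, l⟩, h1, h2⟩ => ⟨l, ?_⟩⟩
  · have g : ∀ i ≤ l, ((List.range (l + 1)).map κ).getD i 0 = κ i := fun i m => by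
      simp [List.getD_eq_getElem?_getD, List.getElem?_range (Nat.lt_succ_of_le m)]
    refine ⟨((List.range (l + 1)).map κ, l), fun i m => ?_, ?_⟩
    · have m' : i < l := by simpa using m
      simp only [g i m'.le, g (i + 1) m']
      exact (uq _ _).2 rfl
    · simp only [g 0 l.zero_le, g l le_rfl, Bool.and_eq_true, beq_iff_eq, mb_iff]
      exact ⟨rfl, h⟩
  · simp only [Bool.and_eq_true, beq_iff_eq, mb_iff] at h1 h2
    have g : ∀ i ≤ l, H.getD i 0 = κ i := fun i m => by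
      induction i with
      | zero => exact h2.1
      | succ i ih =>
        have := h1 i (by simpa using m)
        rw [ih (Nat.le_of_succ_le m)] at this
        exact (uq _ _).1 this
    exact (g l le_rfl ▸ h2.2 : x ∈ dec (List ℕ) (κ l))

end Pool.Agent.Lib.MP_9f1eae_lc.LF
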