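import Mathlib
import Pool.Agent.Lib.MP_9f1eae_lc.LF.Hier

/-! Hyperarithmetic bases. -/

namespace Pool.Agent.Lib.MP_9f1eae_lc.LF

open Pool.Agent.Lib.MP_3d42d9_lc Pool.Agent.Lib.MP_9f1eae_lc Pool.Agent.Lib.MP_9f1eae_lc.LD
  MvPolynomial

variable (e : ℕ ≃ Pq)

/-- The list lies in a basis. -/
def InB (b : List ℕ) : Prop := ∃ S, IsBasis S ∧ ∀ x ∈ b, e x ∈ S

/-- One step of a chain of independent lists. -/
def Ch (q : ℕ × List ℕ × List ℕ) : Prop :=
  (∀ x ∈ q.2.1, x ∈ q.2.2) ∧ AlgebraicIndependent ℚ (tb e q.2.1) ∧ e q.1 ∈ Sp e q.2.2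

variable {e} {b : List ℕ} {S : Set Pq}

theorem chain_mono {β : ℕ → List ℕ} (h : ∀ l, Ch e (l, β l, β (l + 1))) :
    Monotone fun l => e '' {x | x ∈ β l} := monotone_nat_of_le_succ fun l =>
  Set.image_mono (h l).1

theorem chain_basis {β : ℕ → List ℕ} (h : ∀ l, Ch e (l, β l, β (l + 1))) :
    IsBasis (⋃ l, e '' {x | x ∈ β l}) := by
  refine ⟨algebraicIndependent_iUnion_of_directed (chain_mono h).directed_le fun l => ?_,
    eq_top_iff.2 fun r _ => ?_⟩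
  · have := (h l).2.1.coe_range
    rwa [range_tb] at this
  · obtain ⟨l, rfl⟩ := e.surjective r
    exact Algebra.adjoin_mono (Set.subset_iUnion (fun l => e '' {x | x ∈ β l}) (l + 1)) (h l).2.2

theorem IsBasis.ind (h : IsBasis S) (m : ∀ x ∈ b, e x ∈ S) : AlgebraicIndependent ℚ (tb e b) :=
  h.1.comp (fun i : {x // x ∈ b} => ⟨e i, m i i.2⟩)
    fun _ _ l => Subtype.ext (e.injective (congrArg Subtype.val l))

theorem IsBasis.ext (h : IsBasis S) (m : ∀ x ∈ b, e x ∈ S) (l : ℕ) :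
    ∃ c, (∀ x ∈ c, e x ∈ S) ∧ Ch e (l, b, c) := by
  obtain ⟨t, h1, h2⟩ := exists_term e {y | e y ∈ S} (x := e l) (by
    have : e '' {y | e y ∈ S} = S := e.image_preimage S
    rw [this, h.2]
    trivial)
  exact ⟨b ++ supp t, fun x k => (List.mem_append.1 k).elim (m x) (h2 x),
    fun x k => List.mem_append_left _ k, h.ind m,
    sp_iff.2 ⟨t, fun y k => List.mem_append_right _ k, h1⟩⟩

theorem IsBasis.chain (h : IsBasis S) (m : ∀ x ∈ b, e x ∈ S) : ∃ β : ℕ → List ℕ, ∀ l,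
    (∀ x ∈ b, x ∈ β l) ∧ (∀ x ∈ β l, e x ∈ S) ∧ Ch e (l, β l, β (l + 1)) := by
  choose! nx n1 n2 using fun (b : List ℕ) (l : ℕ) (m : ∀ x ∈ b, e x ∈ S) => h.ext m l
  let β : ℕ → List ℕ := fun l => Nat.rec b (fun l b => nx b l) l
  have k : ∀ l, (∀ x ∈ b, x ∈ β l) ∧ ∀ x ∈ β l, e x ∈ S := fun l => by
    induction l with
    | zero => exact ⟨fun _ k => k, m⟩
    | succ l ih => exact ⟨fun x k => (n2 _ l ih.2).1 x (ih.1 x k), n1 _ l ih.2⟩
  exact ⟨β, fun l => ⟨(k l).1, (k l).2, n2 _ l (k l).2⟩⟩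

theorem inB_iff : InB e b ↔ ∃ β : ℕ → List ℕ, ∀ l,
    (∀ x ∈ b, x ∈ β l) ∧ Ch e (l, β l, β (l + 1)) :=
  ⟨fun ⟨_, h, m⟩ => (h.chain m).imp fun _ k l => ⟨(k l).1, (k l).2.2⟩, fun ⟨_, k⟩ =>
    ⟨_, chain_basis fun l => (k l).2, fun x m => Set.mem_iUnion.2 ⟨0, x, (k 0).1 x m, rfl⟩⟩⟩

theorem basis_X : IsBasis (Set.range (X : ℕ → Pq)) :=
  ⟨(algebraicIndependent_X ℕ ℚ).coe_range, adjoin_range_X⟩

/-- Exchange of a part of a basis. -/
theorem IsBasis.swap (h : IsBasis S) {T c : Set Pq} (hT : T ⊆ S)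
    (hc : AlgebraicIndependent ℚ ((↑) : c → Pq)) (k : Algebra.adjoin ℚ c = Algebra.adjoin ℚ T) :
    ∃ S', IsBasis S' ∧ c ⊆ S' := by
  have h1 : AlgebraicIndependent ℚ (Sum.elim ((↑) : ↥(S \ T) → Pq) ((↑) : T → Pq)) := by
    have := h.1.comp (Sum.elim (fun x : ↥(S \ T) => ⟨x, x.2.1⟩) fun x : T => ⟨x, hT x.2⟩) (by
      rintro (x | x) (y | y) l <;> have l := congrArg Subtype.val l
      · exact congrArg _ (Subtype.ext l)
      · exact (x.2.2 ((show (x : Pq) = y from l) ▸ y.2)).elim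
      · exact (y.2.2 ((show (x : Pq) = y from l) ▸ x.2)).elim
      · exact congrArg _ (Subtype.ext l))
    convert this using 1
    funext x
    cases x <;> rfl
  have h2 := (AlgebraicIndependent.sumElim_iff.1 h1).2
  rw [Subtype.range_coe, ← k, ← Subtype.range_coe (s := c)] at h2
  have h3 := (AlgebraicIndependent.sumElim_iff.2 ⟨hc, h2⟩).coe_range
  rw [Set.Sum.elim_range, Subtype.range_coe, Subtype.range_coe] at h3
  refine ⟨_, ⟨h3, ?_⟩, Set.subset_union_right⟩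
  rw [Algebra.adjoin_union, k, ← Algebra.adjoin_union, Set.sdiff_union_of_subset hT, h.2]

variable (e) in
/-- The list `b` extends to an independent list generating the same as a part of `d`. -/
def Fn (b d : List ℕ) : Prop := ∃ u : List ℕ × List ℕ, (∀ x ∈ u.2, x ∈ d) ∧ (∀ x ∈ b, x ∈ u.1) ∧
  AlgebraicIndependent ℚ (tb e u.1) ∧ (∀ x ∈ u.1, e x ∈ Sp e u.2) ∧ ∀ x ∈ u.2, e x ∈ Sp e u.1

/-- The hypothesis for two bases. -/
def HF : Prop := ∀ S S' : Set Pq, IsBasis S → IsBasis S' → ∀ b : Finset Pq, ↑b ⊆ S →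
  ∃ c T : Finset Pq, b ⊆ c ∧ ↑T ⊆ S' ∧ AlgebraicIndependent ℚ ((↑) : c → Pq) ∧
    Algebra.adjoin ℚ (c : Set Pq) = Algebra.adjoin ℚ (T : Set Pq)

theorem im_toList (c : Finset Pq) : e '' {x | x ∈ c.toList.map e.symm} = c := by
  ext r
  simp

theorem not_inB_iff (F : HF) : ¬ InB e b ↔ ∃ β : ℕ → List ℕ, ∀ l,
    Ch e (l, β l, β (l + 1)) ∧ ¬ Fn e b (β l) := by
  classical
  refine ⟨fun h => ?_, fun ⟨β, k⟩ ⟨S, h, m⟩ => ?_⟩
  · obtain ⟨β, k⟩ := basis_X.chain (e := e) (b := []) (by simp)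
    refine ⟨β, fun l => ⟨(k l).2.2, fun ⟨⟨c, T⟩, h1, h2, h3, h4, h5⟩ => h ?_⟩⟩
    have := h3.coe_range
    rw [range_tb] at this
    obtain ⟨S', h6, h7⟩ := basis_X.swap (T := e '' {x | x ∈ T})
      (by rintro _ ⟨x, m, rfl⟩; exact (k l).2.1 x (h1 x m)) this (le_antisymm
        (Algebra.adjoin_le (by rintro _ ⟨x, m, rfl⟩; exact h4 x m))
        (Algebra.adjoin_le (by rintro _ ⟨x, m, rfl⟩; exact h5 x m)))
    exact ⟨S', h6, fun x m => h7 ⟨x, h2 x m, rfl⟩⟩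
  · obtain ⟨c, T, h1, h2, h3, h4⟩ := F S _ h (chain_basis fun l => (k l).1)
      (b.toFinset.image e) (by
        intro r hr
        simp only [Finset.coe_image, List.coe_toFinset] at hr
        obtain ⟨x, hx, rfl⟩ := hr
        exact m x hx)
    obtain ⟨l, hl⟩ := (chain_mono fun l => (k l).1).directed_le.exists_mem_subset_of_finset_subset_biUnion h2
    have mem : ∀ (c : Finset Pq) x, x ∈ c.toList.map e.symm ↔ e x ∈ c := fun c x => by
      rw [← Finset.mem_coe, ← im_toList (e := e) c, e.injective.mem_set_image]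
      rfl
    refine (k l).2 ⟨(c.toList.map e.symm, T.toList.map e.symm), fun x hx => ?_, fun x hx => ?_,
      h3.comp (fun i : {x // x ∈ c.toList.map e.symm} => ⟨e i, (mem c i).1 i.2⟩)
        fun _ _ l => Subtype.ext (e.injective (congrArg Subtype.val l)),
      fun x hx => ?_, fun x hx => ?_⟩
    · exact e.injective.mem_set_image.1 (hl ((mem T x).1 hx))
    · exact (mem c x).2 (h1 (Finset.mem_image_of_mem _ (List.mem_toFinset.2 hx)))
    · rw [Sp, im_toList, ← h4]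
      exact Algebra.subset_adjoin ((mem c x).1 hx)
    · rw [Sp, im_toList, h4]
      exact Algebra.subset_adjoin ((mem T x).1 hx)

section
variable {O : Ops} (hS : O.Sound e) (ca : CP fun p : ℕ × ℕ => O.add p.1 p.2)
  (cm : CP fun p : ℕ × ℕ => O.mul p.1 p.2)

theorem ar_sub : Ar fun q : List ℕ × List ℕ => ∀ x ∈ q.1, x ∈ q.2 :=
  (Ar.bool (f := fun q : List ℕ × List ℕ => q.1.all fun y => mb y q.2)
    (CP.all (by fun_prop) (by fun_prop))).congr fun q => by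
      simp only [List.all_eq_true, mb_iff]

include hS ca cm

theorem ar_ch : Ar (Ch e) :=
  (ar_sub.comp (g := fun q : ℕ × List ℕ × List ℕ => q.2) (by fun_prop)).and
    (((ar_ind hS ca cm).comp (g := fun q : ℕ × List ℕ × List ℕ => q.2.1) (by fun_prop)).and
      ((ar_sp hS ca cm).comp (g := fun q : ℕ × List ℕ × List ℕ => (q.1, q.2.2)) (by fun_prop)))

theorem ar_sps : Ar fun q : List ℕ × List ℕ => ∀ x ∈ q.1, e x ∈ Sp e q.2 :=
  (Ar.all (P := fun r : (List ℕ × List ℕ) × ℕ => mb r.2 r.1.1 = true → e r.2 ∈ Sp e r.1.2)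
    ((Ar.bool (by fun_prop)).imp ((ar_sp hS ca cm).comp
      (g := fun r : (List ℕ × List ℕ) × ℕ => (r.2, r.1.2)) (by fun_prop)))).congr fun q => by
        simp only [mb_iff]

theorem ar_fn : Ar fun q : List ℕ × List ℕ => Fn e q.1 q.2 :=
  Ar.ex (P := fun r : (List ℕ × List ℕ) × List ℕ × List ℕ => (∀ x ∈ r.2.2, x ∈ r.1.2) ∧
    (∀ x ∈ r.1.1, x ∈ r.2.1) ∧ AlgebraicIndependent ℚ (tb e r.2.1) ∧
      (∀ x ∈ r.2.1, e x ∈ Sp e r.2.2) ∧ ∀ x ∈ r.2.2, e x ∈ Sp e r.2.1)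
    ((ar_sub.comp (g := fun r : (List ℕ × List ℕ) × List ℕ × List ℕ => (r.2.2, r.1.2))
      (by fun_prop)).and ((ar_sub.comp
        (g := fun r : (List ℕ × List ℕ) × List ℕ × List ℕ => (r.1.1, r.2.1)) (by fun_prop)).and
      (((ar_ind hS ca cm).comp (g := fun r : (List ℕ × List ℕ) × List ℕ × List ℕ => r.2.1)
        (by fun_prop)).and (((ar_sps hS ca cm).comp
          (g := fun r : (List ℕ × List ℕ) × List ℕ × List ℕ => r.2) (by fun_prop)).and
        ((ar_sps hS ca cm).comp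
          (g := fun r : (List ℕ × List ℕ) × List ℕ × List ℕ => (r.2.2, r.2.1)) (by fun_prop))))))

theorem s11_inB : S11 (InB e) :=
  (D1.of_ar ((ar_sub.comp (g := fun r : List ℕ × ℕ × List ℕ × List ℕ => (r.1, r.2.2.1))
    (by fun_prop)).and ((ar_ch hS ca cm).comp (g := fun r : List ℕ × ℕ × List ℕ × List ℕ => r.2)
      (by fun_prop)))).1.pathL.congr fun _ => inB_iff

theorem s11_not_inB (F : HF) : S11 fun b => ¬ InB e b :=
  (D1.of_ar (((ar_ch hS ca cm).comp (g := fun r : List ℕ × ℕ × List ℕ × List ℕ => r.2)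
    (by fun_prop)).and ((ar_fn hS ca cm).comp
      (g := fun r : List ℕ × ℕ × List ℕ × List ℕ => (r.1, r.2.2.1)) (by fun_prop)).not)).1.pathL.congr
    fun _ => not_inB_iff F

theorem hyp_of (h : S11 fun b => ¬ InB e b) : ∃ B : Set ℕ, IsHyp B ∧ IsBasis (e '' B) := by
  have d : D1 (InB e) := ⟨s11_inB hS ca cm, h⟩
  obtain ⟨β, -, h2, h3⟩ := d1_path (((D1.of_ar (ar_ch hS ca cm)).comp
    (g := fun q : List ℕ × ℕ × List ℕ => (q.2.1, q.1, q.2.2)) (by fun_prop)).and (d.comp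
      (g := fun q : List ℕ × ℕ × List ℕ => q.2.2) (by fun_prop))) (Inv := InB e)
    ⟨_, basis_X, by simp⟩ (fun b l ⟨S, h, m⟩ => (h.ext m l).imp fun c k => ⟨k.2, S, h, k.1⟩)
    fun b l c h => h.2
  refine ⟨{n | ∃ l, n ∈ β l}, h3, ?_⟩
  rw [Set.ofPred_exists, Set.image_iUnion]
  exact chain_basis fun l => (h2 l).1

end

end Pool.Agent.Lib.MP_9f1eae_lc.LF
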