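import Mathlib
import Pool.Agent.Lib.MP_9f1eae_lc.LF.Main
import Pool.Agent.Lib.MP_9f1eae_lc.LD.Code

/-! From the basis of variables to all bases. -/

namespace Pool.Agent.Lib.MP_9f1eae_lc.LF

open Pool.Agent.Lib.MP_3d42d9_lc Pool.Agent.Lib.MP_9f1eae_lc Pool.Agent.Lib.MP_9f1eae_lc.LD
  MvPolynomial

theorem IsBasis.infinite {S : Set Pq} (h : IsBasis S) : S.Infinite := fun f => by
  obtain ⟨n, hn⟩ := (f.biUnion fun s _ => (vars s).finite_toSet).exists_notMem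
  have : Algebra.adjoin ℚ S ≤ supported ℚ (⋃ s ∈ S, (vars s : Set ℕ)) :=
    Algebra.adjoin_le fun s hs => mem_supported.2 (Set.subset_biUnion_of_mem
      (u := fun s : Pq => (vars s : Set ℕ)) hs)
  exact hn (X_mem_supported.1 (this (h.2 ▸ Algebra.mem_top)))

theorem IsBasis.aut {S : Set Pq} (h : IsBasis S) : ∃ Φ : Pq ≃ₐ[ℚ] Pq, ∀ i, Φ (X i) ∈ S := by
  have : Countable Pq := Function.Surjective.countable (f := vX) fun x =>
    (exists_term X _ (sup_univ x)).imp fun _ h => h.1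
  have := h.infinite.to_subtype
  obtain ⟨d⟩ : Nonempty (ℕ ≃ S) := inferInstance
  let Φ : MvPolynomial S ℚ ≃ₐ[ℚ] Pq := AlgEquiv.ofBijective (aeval ((↑) : S → Pq))
    ⟨h.1, by rw [← AlgHom.range_eq_top, ← Algebra.adjoin_range_eq_range_aeval, ← h.2,
      Subtype.range_coe]⟩
  exact ⟨(renameEquiv ℚ d).trans Φ, fun i => by simp [Φ]⟩

theorem ind_image (Φ : Pq ≃ₐ[ℚ] Pq) {S : Set Pq} (h : AlgebraicIndependent ℚ ((↑) : S → Pq)) :
    AlgebraicIndependent ℚ ((↑) : ↥(Φ '' S) → Pq) := by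
  have := (h.map' (f := Φ.toAlgHom) Φ.injective).coe_range
  rwa [Set.range_comp, Subtype.range_coe] at this

theorem hf_of (F : ∀ S : Set Pq, IsBasis S → ∀ b : Finset Pq, ↑b ⊆ S →
    ∃ (c : Finset Pq) (m : ℕ), b ⊆ c ∧ AlgebraicIndependent ℚ ((↑) : c → Pq) ∧
      Algebra.adjoin ℚ (c : Set Pq) = Algebra.adjoin ℚ (X '' Set.Iio m)) : HF := by
  classical
  intro S S' h h' b hb
  obtain ⟨Φ, hΦ⟩ := h'.aut
  obtain ⟨c, m, h1, h2, h3⟩ := F (Φ.symm '' S) ⟨ind_image _ h.1, by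
    have := AlgHom.map_adjoin Φ.symm.toAlgHom S
    rw [h.2, Algebra.map_top, (AlgHom.range_eq_top _).2 Φ.symm.surjective] at this
    exact this.symm⟩ (b.image Φ.symm) (by
      rw [Finset.coe_image]
      exact Set.image_mono hb)
  refine ⟨c.image Φ, (Finset.range m).image fun i => Φ (X i), fun x hx => Finset.mem_image.2
    ⟨_, h1 (Finset.mem_image_of_mem _ hx), by simp⟩, ?_, ?_, ?_⟩
  · rw [Finset.coe_image]
    rintro _ ⟨i, -, rfl⟩
    exact hΦ i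
  · have := ind_image Φ (S := c) h2
    rw [← Finset.coe_image] at this
    exact this
  · have := congrArg (Subalgebra.map Φ.toAlgHom) h3
    rw [AlgHom.map_adjoin, AlgHom.map_adjoin, Set.image_image] at this
    rw [Finset.coe_image, Finset.coe_image, Finset.coe_range]
    exact this

theorem hyp_basis (F : ∀ S : Set Pq, IsBasis S → ∀ b : Finset Pq, ↑b ⊆ S →
    ∃ (c : Finset Pq) (m : ℕ), b ⊆ c ∧ AlgebraicIndependent ℚ ((↑) : c → Pq) ∧
      Algebra.adjoin ℚ (c : Set Pq) = Algebra.adjoin ℚ (X '' Set.Iio m))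
    (add mul : ℕ → ℕ → ℕ) (e : ℕ ≃ Pq) (ca : Computable₂ add) (cm : Computable₂ mul)
    (hadd : ∀ i j, e (add i j) = e i + e j) (hmul : ∀ i j, e (mul i j) = e i * e j) :
    ∃ B : Set ℕ, IsHyp B ∧ IsBasis (e '' B) :=
  have hS : Ops.Sound ⟨add, mul, e.symm 0, e.symm 1⟩ e :=
    ⟨hadd, hmul, e.apply_symm_apply _, e.apply_symm_apply _⟩
  hyp_of hS ca cm (s11_not_inB hS ca cm (hf_of F))

end Pool.Agent.Lib.MP_9f1eae_lc.LF
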